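import Pool.Agent.Q3.SgnDim.Main

open Filter Topology Set
open Pool.Agent.Q3.SgnDim

namespace Pool.Agent.Results.MP_035d7c_an.FullDimension

/-- Let `α_1, …, α_d > 0` and `a_n = (n^{-α_1}, …, n^{-α_d})` (`vec α (n - 1)`). If the set
`S(a_n)` of the sums of the convergent series `∑ ε_n a_n`, `ε ∈ {-1,1}^ℕ`, is `ℝ^d`, then for
every `L ∈ ℝ^d` the set `E(L)` of the sign sequences with `∑ ε_n a_n = L` has Hausdorff
dimension one with respect to the metric `2^{- min {n : ε_n ≠ η_n}}`. -/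
theorem result (d : ℕ) (α : Fin d → ℝ) (hα : ∀ i, 0 < α i)
    (hS : {L : Fin d → ℝ | ∃ ε : Om, Tendsto (fun N : ℕ => ∑ n ∈ Finset.range N,
      sg (ε n) • vec α n) atTop (𝓝 L)} = univ) (L : Fin d → ℝ) :
    dimH {ε : Om | Tendsto (fun N : ℕ => ∑ n ∈ Finset.range N,
      sg (ε n) • vec α n) atTop (𝓝 L)} = 1 :=
  main α hα hS L

end Pool.Agent.Results.MP_035d7c_an.FullDimension
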